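import Pool.Agent.Helper6K9.ES.Main

set_option autoImplicit false

/-!
# Orbits which escape to infinity: dense potentials on flat tori of dimension at least four

Let `𝕋ⁿ`, `n ≥ 4`, be a torus with an arbitrary flat metric `A`. For EVERY potential
`f₀ ∈ C²(𝕋ⁿ × 𝕋)` and every `ε > 0` there is a potential `f ∈ C²(𝕋ⁿ × 𝕋)` with `‖f - f₀‖_{C²} ≤ ε`
such that the Euler-Lagrange flow of the mechanical Lagrangian `½ ⟨A v, v⟩ + f(x, t)` has an orbit
which tends to infinity, with `|γ'(t)| ≥ c t^(1/4)`.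

So for all mechanical Lagrangians on flat tori of dimension at least four the set of the potentials
of Arnold's question contains a dense subset of `C²(𝕋ⁿ × 𝕋)`. For `ε → 0` and `f₀ = 0` the potentials
are arbitrarily small perturbations of the geodesic flow, for which the velocities are constant.

Idea of the proof. After smoothing and the subtraction of its average along the closed geodesic
`s ↦ x + s (1, M, M², …)`, which is small in `C²` for large `M`, `f₀` has no resonance in this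
direction; a linear change of coordinates makes it the direction of `x₀`. Averaging to third order
in the inverse velocity gives an explicit curve `X(t) = θ(t) + O(t^(-1/2))`, with
`θ₀' = t^(1/4)`, `θᵢ' = t^(-7i/20)` for `i = 1, 2, 3`, whose residual force `A X'' - ∂f₀/∂x (X, t)` is
`O(t^(-1/2))` with the component `O(t^(-3/4))` in the direction of the velocity: the resonant force
of second order is orthogonal to the velocity. The residual force is provided by potentials in
tubes of radius `O(t^(-7/20))` around the pieces of the curve between consecutive integer times; the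
`C²` norms of these potentials tend to zero, and the tubes in `𝕋ⁿ × 𝕋` are pairwise disjoint because
of the choice of the three slow velocities.
-/

namespace Pool.Agent.Results.MP_6acca1_an.DenseEscape

open Set Filter Topology

/-- `f` is `ℤⁿ × ℤ`-periodic: a function on `𝕋ⁿ × 𝕋`. -/
def Periodic {n : ℕ} (f : (Fin n → ℝ) × ℝ → ℝ) : Prop :=
  ∀ (p : (Fin n → ℝ) × ℝ) (k : Fin n → ℤ) (l : ℤ), f (p.1 + (fun i => (k i : ℝ)), p.2 + l) = f p

/-- The Lagrangian `½ ⟨A v, v⟩ + f(x, t)`. -/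
noncomputable def lagrangian {n : ℕ} (A : Matrix (Fin n) (Fin n) ℝ) (f : (Fin n → ℝ) × ℝ → ℝ)
    (x v : Fin n → ℝ) (t : ℝ) : ℝ := 1 / 2 * (∑ i, ∑ j, A i j * v i * v j) + f (x, t)

/-- The partial derivative `∂L/∂v_i`. -/
noncomputable def dv {n : ℕ} (L : (Fin n → ℝ) → (Fin n → ℝ) → ℝ → ℝ) (i : Fin n)
    (x v : Fin n → ℝ) (t : ℝ) : ℝ := deriv (fun s => L x (Function.update v i s) t) (v i)

/-- The partial derivative `∂L/∂x_i`. -/
noncomputable def dx {n : ℕ} (L : (Fin n → ℝ) → (Fin n → ℝ) → ℝ → ℝ) (i : Fin n)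
    (x v : Fin n → ℝ) (t : ℝ) : ℝ := deriv (fun s => L (Function.update x i s) v t) (x i)

/-- `γ : ℝ → ℝⁿ` is a solution, defined for all times, of the Euler-Lagrange equations
`d/dt ∂L/∂v_i (γ, γ', t) = ∂L/∂x_i (γ, γ', t)`. -/
def IsOrbit {n : ℕ} (L : (Fin n → ℝ) → (Fin n → ℝ) → ℝ → ℝ) (γ : ℝ → (Fin n → ℝ)) : Prop :=
  (∀ t, DifferentiableAt ℝ γ t) ∧
  ∀ (t : ℝ) (i : Fin n), HasDerivAt (fun s => dv L i (γ s) (deriv γ s) s)
    (dx L i (γ t) (deriv γ t) t) t

/-- Let `n ≥ 4` and let `A` be a positive definite symmetric matrix. For every potential `f₀` of class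
`C²` on `𝕋ⁿ × 𝕋` and every `ε > 0` there is a potential `f` of class `C²` on `𝕋ⁿ × 𝕋` such that all
derivatives of `f - f₀` of order at most two are at most `ε` and the Euler-Lagrange flow of
`½ ⟨A v, v⟩ + f(x, t)` has an orbit `γ` which tends to infinity: `‖γ'(t)‖ ≥ c t^(1/4)` for some `c > 0`
and all large `t`. -/
theorem result (n : ℕ) (hn : 4 ≤ n) (A : Matrix (Fin n) (Fin n) ℝ) (hA : A.PosDef)
    (f₀ : (Fin n → ℝ) × ℝ → ℝ) (hf₀ : ContDiff ℝ 2 f₀) (hp : Periodic f₀) (ε : ℝ) (hε : 0 < ε) :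
    ∃ f : (Fin n → ℝ) × ℝ → ℝ, ContDiff ℝ 2 f ∧ Periodic f ∧
      (∀ (j : ℕ) (p : (Fin n → ℝ) × ℝ), j ≤ 2 →
        ‖iteratedFDeriv ℝ j (fun q => f q - f₀ q) p‖ ≤ ε) ∧
      ∃ γ : ℝ → (Fin n → ℝ), IsOrbit (lagrangian A f) γ ∧
        Tendsto (fun t => ‖deriv γ t‖) atTop atTop ∧
        ∃ c : ℝ, 0 < c ∧ ∀ᶠ t : ℝ in atTop, c * t ^ (1 / 4 : ℝ) ≤ ‖deriv γ t‖ := by
  obtain ⟨m, rfl⟩ : ∃ m, n = m + 1 := ⟨n - 1, by omega⟩
  obtain ⟨f, h1, h2, h3, γ, h4, c, hc, h5⟩ :=
    Pool.Agent.Helper6K9.ES.main (by omega : 3 ≤ m) A hA f₀ hf₀ hp ε hε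
  refine ⟨f, h1, h2, h3, γ, h4, ?_, c, hc, h5⟩
  refine tendsto_atTop_mono' atTop h5 ?_
  exact (tendsto_rpow_atTop (by norm_num)).const_mul_atTop hc

end Pool.Agent.Results.MP_6acca1_an.DenseEscape
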