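import Pool.Agent.Helper6K9.EH.Main2

set_option autoImplicit false

/-!
# Orbits which escape to infinity: dense potentials on flat tori of dimension two

Let `𝕋²` be a two-dimensional torus with an arbitrary flat metric `A`. For EVERY potential
`f₀ ∈ C²(𝕋² × 𝕋)` and every `ε > 0` there is a potential `f ∈ C²(𝕋² × 𝕋)` with `‖f - f₀‖_{C²} ≤ ε`
such that the Euler-Lagrange flow of the mechanical Lagrangian `½ ⟨A v, v⟩ + f(x, t)` has an orbit
which tends to infinity, with `|γ'(t)| ≥ c t^(1/4)`. So for all mechanical Lagrangians on flat two-dimensional tori, the case of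
the smallest dimension in Arnold's question, the set of the potentials with an orbit which tends to
infinity is dense in `C²(𝕋² × 𝕋)`.

The mechanism differs from the one in dimension at least four (`DenseEscape`), where the orbit is a
prescribed curve and the potentials are supported in pairwise disjoint tubes around its pieces; in
dimension two there is not enough space for this.

Idea of the proof. After smoothing, the subtraction of the average along a long closed geodesic and a
linear change of coordinates `f₀` is a smooth function `F` whose averages in the direction of `x₀`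
vanish. A small potential `l² k(x₁)² / (2 γ)` creates a hyperbolic equilibrium `x₁ = 0` (mod 1) of the
slow variable and a homoclinic connection; averaging to third order in the inverse velocity gives an
adiabatic invariant `J = |x₀'| + …` with `J' = O(J⁻³)`. A path of initial conditions which crosses the
stable manifold of the cylinder `x₁ = 0` is stretched there in the waiting time `O(log J)`; then it
goes along the homoclinic connection through a tube around the connection passing `x₁ = 1/2` at the
time `τ_j` (mod 1), in which a potential, small in `C²`, drives the ends of the path to different sides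
of the stable manifold again, and gives `x₀'` a kick in resonance with the velocity. At each passage
the tube, one of two for each block of velocities, is selected according to the phase `x₀`, so that
`J` increases by more than the error of the adiabatic invariant: the increase is of the order
`J^(-41/16)` and the error is of the order `J⁻³ log J`. The time of one passage is `O(J^(1/16))`, hence
`J(t)` grows at least like `t^(8/29)`. All tubes, which are tubes in the `(x₁, t)`-plane,
are disjoint, and the sum of their potentials is small in `C²`. Nested intervals of initial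
conditions yield the orbit.
-/

namespace Pool.Agent.Results.MP_6acca1_an.DenseEscapeSurfaces

open Set Filter Topology

/-- `f` is `ℤⁿ × ℤ`-periodic: a function on `𝕋ⁿ × 𝕋`. -/
def Periodic {n : ℕ} (f : (Fin n → ℝ) × ℝ → ℝ) : Prop :=
  ∀ (p : (Fin n → ℝ) × ℝ) (k : Fin n → ℤ) (l : ℤ), f (p.1 + (fun i => (k i : ℝ)), p.2 + l) = f p

/-- The Lagrangian `½ ⟨A v, v⟩ + f(x, t)`. -/
noncomputable def lagrangian {n : ℕ} (A : Matrix (Fin n) (Fin n) ℝ) (f : (Fin n → ℝ) × ℝ → ℝ)
    (x v : Fin n → ℝ) (t : ℝ) : ℝ := 1 / 2 * (∑ i, ∑ j, A i j * v i * v j) + f (x, t)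

/-- The partial derivative `∂L/∂v_i`. -/
noncomputable def dv {n : ℕ} (L : (Fin n → ℝ) → (Fin n → ℝ) → ℝ → ℝ) (i : Fin n)
    (x v : Fin n → ℝ) (t : ℝ) : ℝ := deriv (fun s => L x (Function.update v i s) t) (v i)

/-- The partial derivative `∂L/∂x_i`. -/
noncomputable def dx {n : ℕ} (L : (Fin n → ℝ) → (Fin n → ℝ) → ℝ → ℝ) (i : Fin n)
    (x v : Fin n → ℝ) (t : ℝ) : ℝ := deriv (fun s => L (Function.update x i s) v t) (x i)

/-- `γ : ℝ → ℝⁿ` is a solution, defined for all times, of the Euler-Lagrange equations
`d/dt ∂L/∂v_i (γ, γ', t) = ∂L/∂x_i (γ, γ', t)`. -/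
def IsOrbit {n : ℕ} (L : (Fin n → ℝ) → (Fin n → ℝ) → ℝ → ℝ) (γ : ℝ → (Fin n → ℝ)) : Prop :=
  (∀ t, DifferentiableAt ℝ γ t) ∧
  ∀ (t : ℝ) (i : Fin n), HasDerivAt (fun s => dv L i (γ s) (deriv γ s) s)
    (dx L i (γ t) (deriv γ t) t) t

/-- Let `A` be a positive definite symmetric `2 × 2` matrix. For every potential `f₀` of class `C²` on
`𝕋² × 𝕋` and every `ε > 0` there is a potential `f` of class `C²` on `𝕋² × 𝕋` such that all
derivatives of `f - f₀` of order at most two are at most `ε` and the Euler-Lagrange flow of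
`½ ⟨A v, v⟩ + f(x, t)` has an orbit `γ` which tends to infinity: `‖γ'(t)‖ ≥ c t^(1/4)` for some `c > 0`
and all large `t`. -/
theorem result (A : Matrix (Fin 2) (Fin 2) ℝ) (hA : A.PosDef)
    (f₀ : (Fin 2 → ℝ) × ℝ → ℝ) (hf₀ : ContDiff ℝ 2 f₀) (hp : Periodic f₀) (ε : ℝ) (hε : 0 < ε) :
    ∃ f : (Fin 2 → ℝ) × ℝ → ℝ, ContDiff ℝ 2 f ∧ Periodic f ∧
      (∀ (j : ℕ) (p : (Fin 2 → ℝ) × ℝ), j ≤ 2 →
        ‖iteratedFDeriv ℝ j (fun q => f q - f₀ q) p‖ ≤ ε) ∧
      ∃ γ : ℝ → (Fin 2 → ℝ), IsOrbit (lagrangian A f) γ ∧
        Tendsto (fun t => ‖deriv γ t‖) atTop atTop ∧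
        ∃ c : ℝ, 0 < c ∧ ∀ᶠ t : ℝ in atTop, c * t ^ (1 / 4 : ℝ) ≤ ‖deriv γ t‖ := by
  obtain ⟨f, h1, h2, h3, γ, h4, c, hc, h5⟩ :=
    Pool.Agent.Helper6K9.EH.main2 A hA f₀ hf₀ hp ε hε
  refine ⟨f, h1, h2, h3, γ, h4, ?_, c, hc, h5⟩
  refine tendsto_atTop_mono' atTop h5 ?_
  exact (tendsto_rpow_atTop (by norm_num)).const_mul_atTop hc

end Pool.Agent.Results.MP_6acca1_an.DenseEscapeSurfaces
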