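import Pool.Agent.Helper6K9.E3.Main

set_option autoImplicit false

/-!
# Orbits which escape to infinity: dense potentials on flat tori of dimension three

Let `𝕋ⁿ`, `n ≥ 3`, be a torus with an arbitrary flat metric `A`. For EVERY potential
`f₀ ∈ C²(𝕋ⁿ × 𝕋)` and every `ε > 0` there is a potential `f ∈ C²(𝕋ⁿ × 𝕋)` with `‖f - f₀‖_{C²} ≤ ε`
such that the Euler-Lagrange flow of the mechanical Lagrangian `½ ⟨A v, v⟩ + f(x, t)` has an orbit
which tends to infinity, with `|γ'(t)| ≥ c t^(1/5)`.

This settles the dimension `n = 3`, which is left open by `DenseEscape` (`n ≥ 4`, speed `t^(1/4)`)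
and by `DenseEscapeSurfaces` (`n = 2`): in all dimensions `n ≥ 2` and for all mechanical Lagrangians of
flat metrics the potentials with an orbit which tends to infinity are dense in `C²(𝕋ⁿ × 𝕋)`.

Idea of the proof. As in dimension at least four the orbit is a curve
`X(t) = θ(t) + u(t)` with an explicit leading part `θ` and a small correction `u`, and the residual
force `A X'' - ∂f₀/∂x (X, t)` is provided by potentials in disjoint tubes around the pieces of the
curve between consecutive integer times. In dimension three there are only two slow directions to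
separate the passes of the tubes, so that the tubes must be thinner, the speed must be smaller,
`θ₀' = t^(1/5)`, `θ₁' = t^(-11/20)`, `θ₂' = t^(-11/10)`, and the residual force must be `O(t^(-4/5))`:
all resonant forces of the second order in the perturbation up to this order must be removed. To
this end `f₀` is approximated by a trigonometric polynomial in `x` with smooth periodic
coefficients in `t`, and a linear change of coordinates in `SL(n, ℤ)` makes all non-zero
frequencies of this polynomial and of the products of two of its derivatives non-resonant with the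
direction of `x₀`. Then the averages along `x₀` of all forces of the second order depend on the time
only; those of the order `t^(-2/5)` vanish by an antisymmetry, and those of the order `t^(-3/5)` have
mean zero over the time period by another one, and can be removed by a correction of the curve. The
tubes have the width `t^(-7/20)` in the fast direction and `t^(-11/20)` in the other directions.
-/

namespace Pool.Agent.Results.MP_6acca1_an.DenseEscapeThree

open Set Filter Topology

/-- `f` is `ℤⁿ × ℤ`-periodic: a function on `𝕋ⁿ × 𝕋`. -/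
def Periodic {n : ℕ} (f : (Fin n → ℝ) × ℝ → ℝ) : Prop :=
  ∀ (p : (Fin n → ℝ) × ℝ) (k : Fin n → ℤ) (l : ℤ), f (p.1 + (fun i => (k i : ℝ)), p.2 + l) = f p

/-- The Lagrangian `½ ⟨A v, v⟩ + f(x, t)`. -/
noncomputable def lagrangian {n : ℕ} (A : Matrix (Fin n) (Fin n) ℝ) (f : (Fin n → ℝ) × ℝ → ℝ)
    (x v : Fin n → ℝ) (t : ℝ) : ℝ := 1 / 2 * (∑ i, ∑ j, A i j * v i * v j) + f (x, t)

/-- The partial derivative `∂L/∂v_i`. -/
noncomputable def dv {n : ℕ} (L : (Fin n → ℝ) → (Fin n → ℝ) → ℝ → ℝ) (i : Fin n)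
    (x v : Fin n → ℝ) (t : ℝ) : ℝ := deriv (fun s => L x (Function.update v i s) t) (v i)

/-- The partial derivative `∂L/∂x_i`. -/
noncomputable def dx {n : ℕ} (L : (Fin n → ℝ) → (Fin n → ℝ) → ℝ → ℝ) (i : Fin n)
    (x v : Fin n → ℝ) (t : ℝ) : ℝ := deriv (fun s => L (Function.update x i s) v t) (x i)

/-- `γ : ℝ → ℝⁿ` is a solution, defined for all times, of the Euler-Lagrange equations
`d/dt ∂L/∂v_i (γ, γ', t) = ∂L/∂x_i (γ, γ', t)`. -/
def IsOrbit {n : ℕ} (L : (Fin n → ℝ) → (Fin n → ℝ) → ℝ → ℝ) (γ : ℝ → (Fin n → ℝ)) : Prop :=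
  (∀ t, DifferentiableAt ℝ γ t) ∧
  ∀ (t : ℝ) (i : Fin n), HasDerivAt (fun s => dv L i (γ s) (deriv γ s) s)
    (dx L i (γ t) (deriv γ t) t) t

/-- Let `n ≥ 3` and let `A` be a positive definite symmetric matrix. For every potential `f₀` of class
`C²` on `𝕋ⁿ × 𝕋` and every `ε > 0` there is a potential `f` of class `C²` on `𝕋ⁿ × 𝕋` such that all
derivatives of `f - f₀` of order at most two are at most `ε` and the Euler-Lagrange flow of
`½ ⟨A v, v⟩ + f(x, t)` has an orbit `γ` which tends to infinity: `‖γ'(t)‖ ≥ c t^(1/5)` for some `c > 0`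
and all large `t`. -/
theorem result (n : ℕ) (hn : 3 ≤ n) (A : Matrix (Fin n) (Fin n) ℝ) (hA : A.PosDef)
    (f₀ : (Fin n → ℝ) × ℝ → ℝ) (hf₀ : ContDiff ℝ 2 f₀) (hp : Periodic f₀) (ε : ℝ) (hε : 0 < ε) :
    ∃ f : (Fin n → ℝ) × ℝ → ℝ, ContDiff ℝ 2 f ∧ Periodic f ∧
      (∀ (j : ℕ) (p : (Fin n → ℝ) × ℝ), j ≤ 2 →
        ‖iteratedFDeriv ℝ j (fun q => f q - f₀ q) p‖ ≤ ε) ∧
      ∃ γ : ℝ → (Fin n → ℝ), IsOrbit (lagrangian A f) γ ∧
        Tendsto (fun t => ‖deriv γ t‖) atTop atTop ∧
        ∃ c : ℝ, 0 < c ∧ ∀ᶠ t : ℝ in atTop, c * t ^ (1 / 5 : ℝ) ≤ ‖deriv γ t‖ := by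
  obtain ⟨m, rfl⟩ : ∃ m, n = m + 1 := ⟨n - 1, by omega⟩
  obtain ⟨f, h1, h2, h3, γ, h4, c, hc, h5⟩ :=
    Pool.Agent.Helper6K9.E3.main (by omega : 2 ≤ m) A hA f₀ hf₀ hp ε hε
  refine ⟨f, h1, h2, h3, γ, h4, ?_, c, hc, h5⟩
  refine tendsto_atTop_mono' atTop h5 ?_
  exact (tendsto_rpow_atTop (by norm_num)).const_mul_atTop hc

end Pool.Agent.Results.MP_6acca1_an.DenseEscapeThree
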