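import Pool.Agent.Helper6K9.EG.Gen3
import Pool.Agent.Helper6K9.EH.Main2
import Pool.Agent.Helper6K9.E3.Main2

set_option autoImplicit false

/-!
# Generic potentials on flat tori: arbitrarily large growth of the speed, at a polynomial rate

Let `𝕋ⁿ`, `n ≥ 2`, be a torus with an arbitrary flat metric `A`, and let `g : ℝ → ℝ` be an
arbitrary (increasing) function, for instance an iterated exponential. For every potential `f` in a
RESIDUAL subset of `C²(𝕋ⁿ × 𝕋)` the Euler-Lagrange flow of `½ ⟨A v, v⟩ + f(x, t)` has, for every `R`, an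
orbit which starts with a speed `R' ≥ R` and reaches the speed `g(R')`; its speed is at least `R` all
the time. The growth is polynomially fast: after the time `s` the speed is at least `s^(1/5) / 2`, up to
the time at which `g(R')` is reached.

So for generic potentials there is no bound at all for the growth of the speed,
`limsup_{R → ∞} Φ_f(R) / g(R) = ∞` for the maximal speed `Φ_f(R) ≤ ∞` reached by the orbits which start
with speeds at most `R`, while for `n = 1` and smooth `f` invariant tori imply `Φ_f(R) ≤ R + C`. The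
speed grows from `R'` to `g(R')` in a time of at most `(2 g(R'))⁵`, for instance from `R'` to `2 R'` in a
time of at most `(4 R')⁵`, for arbitrarily large `R'`; for analytic potentials this time is
exponentially large by Nekhoroshev estimates (Giorgilli and Zehnder, 1992).

The proof: by the density of the potentials with orbits which escape to infinity
with a speed of at least `3 t^(1/5) / 4` (`DenseEscapeSurfaces`, `DenseEscapeThree`) the open set of the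
potentials which have such an orbit with a speed at least `k` is dense for each `k`.
-/

namespace Pool.Agent.Results.MP_6acca1_an.GenericGrowth

open Set Filter Topology

/-- `f` is `ℤⁿ × ℤ`-periodic: a function on `𝕋ⁿ × 𝕋`. -/
def Periodic {n : ℕ} (f : (Fin n → ℝ) × ℝ → ℝ) : Prop :=
  ∀ (p : (Fin n → ℝ) × ℝ) (k : Fin n → ℤ) (l : ℤ), f (p.1 + (fun i => (k i : ℝ)), p.2 + l) = f p

/-- The Lagrangian `½ ⟨A v, v⟩ + f(x, t)`. -/
noncomputable def lagrangian {n : ℕ} (A : Matrix (Fin n) (Fin n) ℝ) (f : (Fin n → ℝ) × ℝ → ℝ)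
    (x v : Fin n → ℝ) (t : ℝ) : ℝ := 1 / 2 * (∑ i, ∑ j, A i j * v i * v j) + f (x, t)

/-- The partial derivative `∂L/∂v_i`. -/
noncomputable def dv {n : ℕ} (L : (Fin n → ℝ) → (Fin n → ℝ) → ℝ → ℝ) (i : Fin n)
    (x v : Fin n → ℝ) (t : ℝ) : ℝ := deriv (fun s => L x (Function.update v i s) t) (v i)

/-- The partial derivative `∂L/∂x_i`. -/
noncomputable def dx {n : ℕ} (L : (Fin n → ℝ) → (Fin n → ℝ) → ℝ → ℝ) (i : Fin n)
    (x v : Fin n → ℝ) (t : ℝ) : ℝ := deriv (fun s => L (Function.update x i s) v t) (x i)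

/-- `γ : ℝ → ℝⁿ` is a solution, defined for all times, of the Euler-Lagrange equations
`d/dt ∂L/∂v_i (γ, γ', t) = ∂L/∂x_i (γ, γ', t)`. -/
def IsOrbit {n : ℕ} (L : (Fin n → ℝ) → (Fin n → ℝ) → ℝ → ℝ) (γ : ℝ → (Fin n → ℝ)) : Prop :=
  (∀ t, DifferentiableAt ℝ γ t) ∧
  ∀ (t : ℝ) (i : Fin n), HasDerivAt (fun s => dv L i (γ s) (deriv γ s) s)
    (dx L i (γ t) (deriv γ t) t) t

/-- The potentials of class `C²` on `𝕋ⁿ × 𝕋`. -/
def Pot (n : ℕ) : Set ((Fin n → ℝ) × ℝ → ℝ) := {f | ContDiff ℝ 2 f ∧ Periodic f}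

/-- All derivatives of `h - f` of order at most two are at most `ε`: the distance of `C²(𝕋ⁿ × 𝕋)`. -/
def Close {n : ℕ} (ε : ℝ) (h f : (Fin n → ℝ) × ℝ → ℝ) : Prop :=
  ∀ (j : ℕ) (p : (Fin n → ℝ) × ℝ), j ≤ 2 → ‖iteratedFDeriv ℝ j (fun q => h q - f q) p‖ ≤ ε

/-- `U` is an open subset of `C²(𝕋ⁿ × 𝕋)`. -/
def IsOpenC2 {n : ℕ} (U : Set ((Fin n → ℝ) × ℝ → ℝ)) : Prop :=
  U ⊆ Pot n ∧ ∀ f ∈ U, ∃ ε : ℝ, 0 < ε ∧ ∀ h ∈ Pot n, Close ε h f → h ∈ U

/-- `U` is a dense subset of `C²(𝕋ⁿ × 𝕋)`. -/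
def IsDenseC2 {n : ℕ} (U : Set ((Fin n → ℝ) × ℝ → ℝ)) : Prop :=
  ∀ f ∈ Pot n, ∀ ε : ℝ, 0 < ε → ∃ h ∈ U, Close ε h f

/-- `O` contains the intersection of a sequence of open dense subsets of `C²(𝕋ⁿ × 𝕋)`. -/
def IsResidualC2 {n : ℕ} (O : Set ((Fin n → ℝ) × ℝ → ℝ)) : Prop :=
  ∃ U : ℕ → Set ((Fin n → ℝ) × ℝ → ℝ), (∀ k, IsOpenC2 (U k) ∧ IsDenseC2 (U k)) ∧ ⋂ k, U k ⊆ O

/-- Let `n ≥ 2`, let `A` be a positive definite symmetric matrix and let `g : ℝ → ℝ` be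
monotone. For all potentials `f` in a residual subset of `C²(𝕋ⁿ × 𝕋)`: for every `R` the Euler-Lagrange
flow of `½ ⟨A v, v⟩ + f(x, t)` has an orbit `γ` and a time interval `[a, b]` during which the speed is at
least `R` and at whose end the speed is at least `g(‖γ'(a)‖)`, with `‖γ'(t)‖ ≥ (t - a)^(1/5) / 2` for
all `t` in `[a, b]`. -/
theorem result (n : ℕ) (hn : 2 ≤ n) (A : Matrix (Fin n) (Fin n) ℝ) (hA : A.PosDef)
    (g : ℝ → ℝ) (hg : Monotone g) :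
    IsResidualC2 {f : (Fin n → ℝ) × ℝ → ℝ | ∀ R : ℝ, ∃ γ : ℝ → (Fin n → ℝ),
      IsOrbit (lagrangian A f) γ ∧ ∃ a b : ℝ, a < b ∧ (∀ t ∈ Icc a b, R ≤ ‖deriv γ t‖) ∧
        g ‖deriv γ a‖ ≤ ‖deriv γ b‖ ∧
        ∀ t ∈ Icc a b, 1 / 2 * (t - a) ^ (1 / 5 : ℝ) ≤ ‖deriv γ t‖} := by
  obtain ⟨m, rfl⟩ : ∃ m, n = m + 1 := ⟨n - 1, by omega⟩
  refine ⟨Pool.Agent.Helper6K9.EG.UR A g Pool.Agent.Helper6K9.EG.rt,
    fun k => ⟨⟨fun f hf => hf.1, fun f hf => ?_⟩, fun f hf ε hε => ?_⟩, fun f hf R => ?_⟩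
  · exact Pool.Agent.Helper6K9.EG.ur_open A hA g _ Pool.Agent.Helper6K9.EG.rt_cont k f hf
  · have key : ∃ h : (Fin (m + 1) → ℝ) × ℝ → ℝ, ContDiff ℝ 2 h ∧ Periodic h ∧ Close ε h f ∧
        ∃ γ : ℝ → (Fin (m + 1) → ℝ), IsOrbit (lagrangian A h) γ ∧
          ∀ᶠ t : ℝ in atTop, 3 / 4 * t ^ (1 / 5 : ℝ) ≤ ‖deriv γ t‖ := by
      rcases Nat.lt_or_ge m 2 with hm | hm
      · obtain rfl : m = 1 := by omega
        obtain ⟨h, h1, h2, h3, γ, h4, c, hc, h5⟩ :=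
          Pool.Agent.Helper6K9.EH.main2 A hA f hf.1 hf.2 ε hε
        exact ⟨h, h1, h2, h3, γ, h4, Pool.Agent.Helper6K9.EG.rt_of_quarter hc h5⟩
      · exact Pool.Agent.Helper6K9.E3.main2 hm A hA f hf.1 hf.2 ε hε
    obtain ⟨h, h1, h2, h3, γ, h4, h5⟩ := key
    refine ⟨h, Pool.Agent.Helper6K9.EG.ur_dense A g _ k h ⟨h1, h2⟩
      ⟨γ, h4, ?_, Pool.Agent.Helper6K9.EG.rt_lt h5⟩, h3⟩
    refine tendsto_atTop_mono' atTop h5 ?_
    exact (tendsto_rpow_atTop (by norm_num)).const_mul_atTop (by norm_num)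
  · exact Pool.Agent.Helper6K9.EG.ur_grow A g _ hg f (mem_iInter.1 hf) R

end Pool.Agent.Results.MP_6acca1_an.GenericGrowth
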